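import Mathlib
import Pool.Agent.Helper18.BL.T1
import Pool.Agent.Helper18.BL.T2

set_option autoImplicit false

open Set MeasureTheory Filter Topology Metric
open scoped RealInnerProductSpace

namespace Pool.Agent.Helper18.BL

theorem norm_dir_sub_le_q {u v : E} (hu : u ≠ 0) (hv : v ≠ 0) :
    ‖(‖u‖⁻¹ : ℝ) • u - (‖v‖⁻¹ : ℝ) • v‖ ≤ 2 * ‖u - v‖ / ‖u‖ := by
  have hu' : 0 < ‖u‖ := norm_pos_iff.2 hu
  have hv' : 0 < ‖v‖ := norm_pos_iff.2 hv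
  have e : (‖u‖⁻¹ : ℝ) • u - (‖v‖⁻¹ : ℝ) • v
      = (‖u‖⁻¹ : ℝ) • (u - v) + ((‖u‖⁻¹ : ℝ) - ‖v‖⁻¹) • v := by
    rw [smul_sub, sub_smul]; abel
  rw [e]
  refine (norm_add_le _ _).trans ?_
  rw [norm_smul, norm_smul, Real.norm_of_nonneg (inv_nonneg.2 hu'.le), Real.norm_eq_abs]
  have h1 : |(‖u‖⁻¹ : ℝ) - ‖v‖⁻¹| * ‖v‖ ≤ ‖u - v‖ / ‖u‖ := by
    have : (‖u‖⁻¹ : ℝ) - ‖v‖⁻¹ = (‖v‖ - ‖u‖) * (‖u‖⁻¹ * ‖v‖⁻¹) := by
      field_simp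
    rw [this, abs_mul, abs_of_pos (mul_pos (inv_pos.2 hu') (inv_pos.2 hv'))]
    have h2 : |‖v‖ - ‖u‖| ≤ ‖u - v‖ := by
      rw [norm_sub_rev]; exact abs_norm_sub_norm_le v u
    calc |‖v‖ - ‖u‖| * (‖u‖⁻¹ * ‖v‖⁻¹) * ‖v‖ = |‖v‖ - ‖u‖| / ‖u‖ := by
          field_simp
      _ ≤ ‖u - v‖ / ‖u‖ := by gcongr
  have h3 : 2 * ‖u - v‖ / ‖u‖ = ‖u‖⁻¹ * ‖u - v‖ + ‖u - v‖ / ‖u‖ := by
    rw [div_eq_inv_mul, div_eq_inv_mul]; ring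
  rw [h3]
  gcongr

namespace Setting
variable (S : Setting)

theorem Sp_smul_q {c : ℝ} (hc : 0 < c) {v : E} (hv : v ≠ 0) : S.Sp (c • v) = S.Sp v := by
  ext w
  simp only [Sp, mem_ofPred_eq, S.C_smul hc hv, inner_smul_left, conj_trivial, mul_eq_zero,
    hc.ne', false_or]

theorem zero_mem_Sp_q {v : E} (hv : v ≠ 0) : (0 : E) ∈ S.Sp v := by
  refine ⟨inner_zero_right _, ?_⟩
  rw [add_zero]; exact S.C_mem hv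

theorem mem_Sp_h_q {v w : E} (hv : v ≠ 0) (hw : w ∈ S.Sp v) : ⟪v, S.C v + w⟫ = S.h v := by
  rw [inner_add_right, S.C_h v hv, hw.1, add_zero]

theorem ball_half_q {v0 u : E} (hu : u ∈ ball v0 (‖v0‖ / 2)) : ‖v0‖ / 2 ≤ ‖u‖ := by
  rw [mem_ball, dist_eq_norm] at hu
  have := norm_sub_norm_le v0 u
  rw [norm_sub_rev] at this
  linarith

theorem ball_half_ne_q {v0 u : E} (hv0 : v0 ≠ 0) (hu : u ∈ ball v0 (‖v0‖ / 2)) : u ≠ 0 := by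
  have h := ball_half_q hu
  have h0 : 0 < ‖v0‖ := norm_pos_iff.2 hv0
  intro h1
  rw [h1, norm_zero] at h
  linarith

/-- local Lipschitz dependence of centred sections -/
theorem Sp_move_q {v0 : E} (hv0 : v0 ≠ 0) : ∃ L : ℝ, 0 < L ∧ ∀ u ∈ ball v0 (‖v0‖ / 2),
    ∀ v ∈ ball v0 (‖v0‖ / 2), ∀ w ∈ S.Sp u, ∃ w' ∈ S.Sp v, ‖w - w'‖ ≤ L * ‖u - v‖ := by
  obtain ⟨L1, hL1, h1⟩ := S.section_lip
  obtain ⟨L2, hL2, h2⟩ := S.C_lip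
  have h0 : 0 < ‖v0‖ := norm_pos_iff.2 hv0
  refine ⟨(L1 + L2) * (4 / ‖v0‖), by positivity, ?_⟩
  intro u hu v hv w hw
  have hu0 : u ≠ 0 := ball_half_ne_q hv0 hu
  have hv0' : v ≠ 0 := ball_half_ne_q hv0 hv
  have hun : 0 < ‖u‖ := norm_pos_iff.2 hu0
  have hvn : 0 < ‖v‖ := norm_pos_iff.2 hv0'
  set ud : E := (‖u‖⁻¹ : ℝ) • u with hud
  set vd : E := (‖v‖⁻¹ : ℝ) • v with hvd
  have nu : ‖ud‖ = 1 := by
    rw [hud, norm_smul, norm_inv, norm_norm, inv_mul_cancel₀ hun.ne']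
  have nv : ‖vd‖ = 1 := by
    rw [hvd, norm_smul, norm_inv, norm_norm, inv_mul_cancel₀ hvn.ne']
  have hud0 : ud ≠ 0 := by
    intro h; rw [h, norm_zero] at nu; exact zero_ne_one nu
  have hvd0 : vd ≠ 0 := by
    intro h; rw [h, norm_zero] at nv; exact zero_ne_one nv
  have hwu : w ∈ S.Sp ud := by
    rw [hud, S.Sp_smul_q (inv_pos.2 hun) hu0]; exact hw
  obtain ⟨y, hyK, hyh, hxy⟩ := h1 ud vd nu nv (S.C ud + w) hwu.2 (S.mem_Sp_h_q hud0 hwu)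
  have hw' : y - S.C vd ∈ S.Sp vd := by
    refine ⟨?_, ?_⟩
    · rw [inner_sub_right, hyh, S.C_h _ hvd0, sub_self]
    · rw [add_sub_cancel]; exact hyK
  refine ⟨y - S.C vd, ?_, ?_⟩
  · rw [hvd, S.Sp_smul_q (inv_pos.2 hvn) hv0'] at hw'
    exact hw'
  · have e : w - (y - S.C vd) = (S.C ud + w - y) - (S.C ud - S.C vd) := by abel
    have h3 : ‖ud - vd‖ ≤ 4 / ‖v0‖ * ‖u - v‖ := by
      refine (norm_dir_sub_le_q hu0 hv0').trans ?_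
      have h4 := ball_half_q hu
      rw [div_mul_eq_mul_div, div_le_div_iff₀ hun h0]
      nlinarith [norm_nonneg (u - v)]
    calc ‖w - (y - S.C vd)‖ ≤ ‖S.C ud + w - y‖ + ‖S.C ud - S.C vd‖ := by
          rw [e]; exact norm_sub_le _ _
      _ ≤ L1 * ‖ud - vd‖ + L2 * ‖ud - vd‖ := add_le_add hxy (h2 ud vd nu nv)
      _ = (L1 + L2) * ‖ud - vd‖ := by ring
      _ ≤ (L1 + L2) * (4 / ‖v0‖ * ‖u - v‖) := by gcongr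
      _ = (L1 + L2) * (4 / ‖v0‖) * ‖u - v‖ := by ring

/-- local Lipschitz continuity of the centre -/
theorem C_move_q {v0 : E} (hv0 : v0 ≠ 0) : ∃ L : ℝ, 0 < L ∧ ∀ u ∈ ball v0 (‖v0‖ / 2),
    ∀ v ∈ ball v0 (‖v0‖ / 2), ‖S.C u - S.C v‖ ≤ L * ‖u - v‖ := by
  obtain ⟨L2, hL2, h2⟩ := S.C_lip
  have h0 : 0 < ‖v0‖ := norm_pos_iff.2 hv0
  refine ⟨L2 * (4 / ‖v0‖), by positivity, ?_⟩
  intro u hu v hv
  have hu0 : u ≠ 0 := ball_half_ne_q hv0 hu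
  have hv0' : v ≠ 0 := ball_half_ne_q hv0 hv
  have hun : 0 < ‖u‖ := norm_pos_iff.2 hu0
  have hvn : 0 < ‖v‖ := norm_pos_iff.2 hv0'
  have nu : ‖(‖u‖⁻¹ : ℝ) • u‖ = 1 := by
    rw [norm_smul, norm_inv, norm_norm, inv_mul_cancel₀ hun.ne']
  have nv : ‖(‖v‖⁻¹ : ℝ) • v‖ = 1 := by
    rw [norm_smul, norm_inv, norm_norm, inv_mul_cancel₀ hvn.ne']
  have h3 : ‖(‖u‖⁻¹ : ℝ) • u - (‖v‖⁻¹ : ℝ) • v‖ ≤ 4 / ‖v0‖ * ‖u - v‖ := by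
    refine (norm_dir_sub_le_q hu0 hv0').trans ?_
    have h4 := ball_half_q hu
    rw [div_mul_eq_mul_div, div_le_div_iff₀ hun h0]
    nlinarith [norm_nonneg (u - v)]
  have h5 := h2 _ _ nu nv
  rw [S.C_smul (inv_pos.2 hun) hu0, S.C_smul (inv_pos.2 hvn) hv0'] at h5
  calc ‖S.C u - S.C v‖ ≤ L2 * ‖(‖u‖⁻¹ : ℝ) • u - (‖v‖⁻¹ : ℝ) • v‖ := h5
    _ ≤ L2 * (4 / ‖v0‖ * ‖u - v‖) := by gcongr
    _ = L2 * (4 / ‖v0‖) * ‖u - v‖ := by ring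

theorem bddAbove_Sp_q {v : E} (n : E) : BddAbove ((fun w => ⟪n, w⟫) '' S.Sp v) :=
  ((S.Sp_compact v).image (by fun_prop)).bddAbove

theorem le_lsup_q {v n w : E} (hw : w ∈ S.Sp v) : ⟪n, w⟫ ≤ S.lsup v n :=
  le_csSup (S.bddAbove_Sp_q n) ⟨w, hw, rfl⟩

theorem lsup_att_q {v : E} (hv : v ≠ 0) (n : E) : ∃ w ∈ S.Sp v, S.lsup v n = ⟪n, w⟫ ∧
    ∀ w' ∈ S.Sp v, ⟪n, w'⟫ ≤ ⟪n, w⟫ := by
  obtain ⟨w, hw, hm⟩ := (S.Sp_compact v).exists_isMaxOn ⟨0, S.zero_mem_Sp_q hv⟩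
    (f := fun w => ⟪n, w⟫) (by fun_prop)
  refine ⟨w, hw, ?_, fun w' hw' => hm hw'⟩
  apply le_antisymm
  · apply csSup_le
    · exact ⟨_, ⟨w, hw, rfl⟩⟩
    · rintro _ ⟨w', hw', rfl⟩
      exact hm hw'
  · exact S.le_lsup_q hw

theorem lsup_neg_q {v : E} (hv : v ≠ 0) (n : E) : S.lsup v (-n) = S.lsup v n := by
  have key : ∀ m : E, S.lsup v (-m) ≤ S.lsup v m := by
    intro m
    obtain ⟨w, hw, he, -⟩ := S.lsup_att_q hv (-m)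
    rw [he, inner_neg_left, ← inner_neg_right]
    exact S.le_lsup_q (S.Sp_neg hv hw)
  apply le_antisymm (key n)
  have := key (-n)
  rwa [neg_neg] at this

end Setting
end Pool.Agent.Helper18.BL
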